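import Pool.Agent.E8helper4.FV.Stm3
import Pool.Agent.Helper202.Geom

/-!
Project FV, third round: G5 (the cubic identity for one Killing field) and G6 (polarisation).
-/

set_option autoImplicit false
set_option linter.unusedVariables false

open Complex MeasureTheory Metric Set Filter Topology ComplexConjugate

namespace Pool.Agent.E8helper6.FV3

open Pool.Agent.E8helper4.FV (xx xd J1 J2 J3 J4 vn G5 G6)

lemma mem_r {r : ℝ} (hr : 1 < r) (t : ℝ) : exp ((t : ℂ) * I) ∈ ball (0 : ℂ) r := by
  simp only [mem_ball, dist_zero_right, norm_exp_ofReal_mul_I]; exact hr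

lemma cont_circ {g : ℂ → ℂ} {r : ℝ} (hr : 1 < r) (hg : DifferentiableOn ℂ g (ball 0 r)) :
    Continuous fun t : ℝ => g (exp ((t : ℂ) * I)) := by
  have h : ContinuousOn g (ball 0 r) := hg.continuousOn
  rw [← continuousOn_univ]
  exact h.comp (by fun_prop) (fun t _ => mem_r hr t)

lemma xx_cont {φ : ℂ → ℂ} {r : ℝ} (hr : 1 < r) (hφ : DifferentiableOn ℂ φ (ball 0 r)) :
    Continuous (xx φ) := cont_circ hr hφ

lemma xd_cont {φ : ℂ → ℂ} {r : ℝ} (hr : 1 < r) (hφ : DifferentiableOn ℂ φ (ball 0 r)) :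
    Continuous (xd φ) := by
  have h := cont_circ hr (hφ.deriv isOpen_ball)
  unfold xd
  fun_prop

lemma xx_der {φ : ℂ → ℂ} {r : ℝ} (hr : 1 < r) (hφ : DifferentiableOn ℂ φ (ball 0 r)) (t : ℝ) :
    HasDerivAt (xx φ) (xd φ t) t := by
  have h1 : HasDerivAt φ (deriv φ (exp ((t : ℂ) * I))) (exp ((t : ℂ) * I)) :=
    ((hφ _ (mem_r hr t)).differentiableAt (isOpen_ball.mem_nhds (mem_r hr t))).hasDerivAt
  have h2 : HasDerivAt (fun t : ℝ => exp ((t : ℂ) * I)) (exp ((t : ℂ) * I) * (1 * I)) t := by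
    have : HasDerivAt (fun t : ℝ => (t : ℂ) * I) (1 * I) t :=
      (Complex.ofRealCLM.hasDerivAt (x := t)).mul_const I
    exact this.cexp
  have h3 := h1.comp_of_eq t h2 rfl
  refine h3.congr_deriv ?_
  unfold xd; ring

lemma xx_per (φ : ℂ → ℂ) : xx φ (2 * Real.pi) = xx φ 0 := by
  unfold xx; congr 1; push_cast; rw [Complex.exp_two_pi_mul_I]; simp

lemma xd_ne {φ : ℂ → ℂ} {r : ℝ} (hr : 1 < r) (hφ : DifferentiableOn ℂ φ (ball 0 r))
    (hinj : InjOn φ (ball 0 r)) (t : ℝ) : xd φ t ≠ 0 := by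
  unfold xd
  exact mul_ne_zero (mul_ne_zero I_ne_zero (exp_ne_zero _))
    (Pool.Agent.Helper202.Geom.deriv_ne_zero_of_injOn isOpen_ball hφ hinj (mem_r hr t))

lemma vn_cont {φ : ℂ → ℂ} {r : ℝ} (hr : 1 < r) (hφ : DifferentiableOn ℂ φ (ball 0 r))
    (β : ℂ) (ω : ℝ) : Continuous (vn φ β ω) := by
  have hx := xx_cont hr hφ
  have hd := xd_cont hr hφ
  unfold vn
  have : Continuous fun t => conj (β + I * (ω : ℂ) * xx φ t) * xd φ t :=
    (Complex.continuous_conj.comp (by fun_prop)).mul hd
  exact Complex.continuous_im.comp this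

theorem t_G6 : G6 := by
  intro φ r hr hφ hinj h β1 β2 β3 ω1 ω2 ω3
  have hd := xd_cont hr hφ
  have hc : ∀ β ω, IntervalIntegrable (fun t => vn φ β ω t ^ 3 / ‖xd φ t‖ ^ 2) volume 0
      (2 * Real.pi) := by
    intro β ω
    apply Continuous.intervalIntegrable
    refine ((vn_cont hr hφ β ω).pow 3).div (hd.norm.pow 2) (fun t => ?_)
    exact pow_ne_zero _ (norm_ne_zero_iff.2 (xd_ne hr hφ hinj t))
  have e : ∀ t, vn φ β1 ω1 t * vn φ β2 ω2 t * vn φ β3 ω3 t / ‖xd φ t‖ ^ 2 =
      1 / 24 * (vn φ (β1 + β2 + β3) (ω1 + ω2 + ω3) t ^ 3 / ‖xd φ t‖ ^ 2 -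
        vn φ (β1 + β2 - β3) (ω1 + ω2 - ω3) t ^ 3 / ‖xd φ t‖ ^ 2 -
        vn φ (β1 - β2 + β3) (ω1 - ω2 + ω3) t ^ 3 / ‖xd φ t‖ ^ 2 -
        vn φ (-β1 + β2 + β3) (-ω1 + ω2 + ω3) t ^ 3 / ‖xd φ t‖ ^ 2) := by
    intro t
    have ha : ∀ β β' : ℂ, ∀ ω ω' : ℝ, vn φ (β + β') (ω + ω') t = vn φ β ω t + vn φ β' ω' t := by
      intro β β' ω ω'
      unfold vn
      rw [← Complex.add_im]
      congr 1
      push_cast
      simp only [map_add, map_mul]
      ring
    have hn : ∀ β : ℂ, ∀ ω : ℝ, vn φ (-β) (-ω) t = - vn φ β ω t := by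
      intro β ω
      unfold vn
      rw [← Complex.neg_im]
      congr 1
      push_cast
      simp only [map_add, map_mul, map_neg]
      ring
    rw [sub_eq_add_neg (β1 + β2) β3, sub_eq_add_neg (ω1 + ω2) ω3, sub_eq_add_neg β1 β2,
      sub_eq_add_neg ω1 ω2]
    simp only [ha, hn]
    ring
  rw [intervalIntegral.integral_congr (fun t _ => e t), intervalIntegral.integral_const_mul,
    intervalIntegral.integral_sub (((hc _ _).sub (hc _ _)).sub (hc _ _)) (hc _ _),
    intervalIntegral.integral_sub ((hc _ _).sub (hc _ _)) (hc _ _),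
    intervalIntegral.integral_sub (hc _ _) (hc _ _), h, h, h, h]
  ring

lemma im3 (w : ℂ) : w.im ^ 3 = 3 / 4 * (normSq w * w.im) - 1 / 4 * (w ^ 3).im := by
  have : (w ^ 3).im = 3 * w.re ^ 2 * w.im - w.im ^ 3 := by
    rw [pow_succ, pow_two]
    simp only [Complex.mul_im, Complex.mul_re]
    ring
  rw [this, Complex.normSq_apply]
  ring

theorem t_G5 : G5 := by
  intro φ r hr hφ hinj h1 h2 h3 h4 β ω
  have hx := xx_cont hr hφ
  have hd := xd_cont hr hφ
  have hne := xd_ne hr hφ hinj
  set V : ℝ → ℂ := fun t => β + I * (ω : ℂ) * xx φ t with hV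
  set g : ℝ → ℂ := fun t => conj (xd φ t) ^ 2 / xd φ t with hg
  have hVc : Continuous V := by rw [hV]; fun_prop
  have hgc : Continuous g := by
    rw [hg]
    exact ((Complex.continuous_conj.comp hd).pow 2).div hd hne
  have hFc : Continuous fun t => V t ^ 3 * g t := (hVc.pow 3).mul hgc
  -- the integral of `V³ g`
  have hF : (∫ t in (0 : ℝ)..(2 * Real.pi), V t ^ 3 * g t).im = 0 := by
    have e : ∀ t, V t ^ 3 * g t = β ^ 3 * g t + 3 * I * ω * β ^ 2 * (xx φ t * g t) +
        (-3 * ω ^ 2 * β) * (xx φ t ^ 2 * g t) + (-I * ω ^ 3) * (xx φ t ^ 3 * g t) := by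
      intro t
      simp only [hV]
      have hI : I ^ 2 = -1 := I_sq
      have hI3 : I ^ 3 = -I := by rw [pow_succ, I_sq]; ring
      linear_combination (3 * β * ω ^ 2 * xx φ t ^ 2 * g t) * hI +
        (ω ^ 3 * xx φ t ^ 3 * g t) * hI3
    have i1 : IntervalIntegrable (fun t => β ^ 3 * g t) volume 0 (2 * Real.pi) :=
      (continuous_const.mul hgc).intervalIntegrable _ _
    have i2 : IntervalIntegrable (fun t => 3 * I * ω * β ^ 2 * (xx φ t * g t)) volume 0
        (2 * Real.pi) := (continuous_const.mul (hx.mul hgc)).intervalIntegrable _ _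
    have i3 : IntervalIntegrable (fun t => (-3 * ω ^ 2 * β) * (xx φ t ^ 2 * g t)) volume 0
        (2 * Real.pi) := (continuous_const.mul ((hx.pow 2).mul hgc)).intervalIntegrable _ _
    have i4 : IntervalIntegrable (fun t => (-I * ω ^ 3) * (xx φ t ^ 3 * g t)) volume 0
        (2 * Real.pi) := (continuous_const.mul ((hx.pow 3).mul hgc)).intervalIntegrable _ _
    rw [intervalIntegral.integral_congr (fun t _ => e t),
      intervalIntegral.integral_add ((i1.add i2).add i3) i4,
      intervalIntegral.integral_add (i1.add i2) i3, intervalIntegral.integral_add i1 i2,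
      intervalIntegral.integral_const_mul, intervalIntegral.integral_const_mul,
      intervalIntegral.integral_const_mul, intervalIntegral.integral_const_mul]
    have j1 : ∫ t in (0 : ℝ)..(2 * Real.pi), g t = 0 := h1
    have j2 : ∫ t in (0 : ℝ)..(2 * Real.pi), xx φ t * g t = 0 := h2
    have j3 : ∫ t in (0 : ℝ)..(2 * Real.pi), xx φ t ^ 2 * g t = 0 := h3
    have j4 : ∫ t in (0 : ℝ)..(2 * Real.pi), xx φ t ^ 3 * g t = J4 φ := rfl
    rw [j1, j2, j3, j4]
    have e2 : β ^ 3 * 0 + 3 * I * ω * β ^ 2 * 0 + -3 * ω ^ 2 * β * 0 + -I * ω ^ 3 * J4 φ =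
        -(((ω ^ 3 : ℝ) : ℂ) * (I * J4 φ)) := by push_cast; ring
    rw [e2, Complex.neg_im, Complex.im_ofReal_mul]
    simp [h4]
  -- the exact part
  have hE : ∫ t in (0 : ℝ)..(2 * Real.pi), normSq (V t) * (conj (V t) * xd φ t).im = 0 := by
    by_cases hω : ω = 0
    · have e : ∀ t, normSq (V t) * (conj (V t) * xd φ t).im =
          normSq β * (conj β * xd φ t).im := by
        intro t
        simp [hV, hω]
      rw [intervalIntegral.integral_congr (fun t _ => e t), intervalIntegral.integral_const_mul]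
      have h5 : ∫ t in (0 : ℝ)..(2 * Real.pi), xd φ t = 0 := by
        rw [intervalIntegral.integral_eq_sub_of_hasDerivAt (fun t _ => xx_der hr hφ t)
          (hd.intervalIntegrable _ _), xx_per, sub_self]
      have h6 : ∫ t in (0 : ℝ)..(2 * Real.pi), (conj β * xd φ t).im =
          (∫ t in (0 : ℝ)..(2 * Real.pi), conj β * xd φ t).im :=
        Complex.imCLM.intervalIntegral_comp_comm
          ((continuous_const.mul hd).intervalIntegrable _ _)
      rw [h6, intervalIntegral.integral_const_mul, h5]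
      simp
    · have hder : ∀ t, HasDerivAt (fun t => -(1 / (4 * ω)) * (normSq (V t)) ^ 2)
          (normSq (V t) * (conj (V t) * xd φ t).im) t := by
        intro t
        have v1 : HasDerivAt V (I * ω * xd φ t) t := by
          have := ((xx_der hr hφ t).const_mul (I * (ω : ℂ))).const_add β
          exact this
        have v2 : HasDerivAt (fun t => (V t).re) (I * ω * xd φ t).re t :=
          Complex.reCLM.hasFDerivAt.comp_hasDerivAt t v1
        have v3 : HasDerivAt (fun t => (V t).im) (I * ω * xd φ t).im t :=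
          Complex.imCLM.hasFDerivAt.comp_hasDerivAt t v1
        have v4 := (((v2.mul v2).add (v3.mul v3)).pow 2).const_mul (-(1 / (4 * ω)))
        have e1 : (fun t => -(1 / (4 * ω)) * (normSq (V t)) ^ 2) = fun t =>
            -(1 / (4 * ω)) * ((V t).re * (V t).re + (V t).im * (V t).im) ^ 2 := by
          funext t
          rw [Complex.normSq_apply]
        rw [e1]
        refine v4.congr_deriv ?_
        rw [Complex.normSq_apply]
        simp only [Complex.mul_re, Complex.mul_im, Complex.I_re, Complex.I_im, Complex.ofReal_re,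
          Complex.ofReal_im, Complex.conj_re, Complex.conj_im, Pi.add_apply, Pi.mul_apply]
        field_simp
        ring
      rw [intervalIntegral.integral_eq_sub_of_hasDerivAt (fun t _ => hder t)]
      · have : V (2 * Real.pi) = V 0 := by simp only [hV, xx_per]
        rw [this, sub_self]
      · apply Continuous.intervalIntegrable
        exact (Complex.continuous_normSq.comp hVc).mul (Complex.continuous_im.comp
          ((Complex.continuous_conj.comp hVc).mul hd))
  have key : ∀ t, vn φ β ω t ^ 3 / ‖xd φ t‖ ^ 2 =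
      3 / 4 * (normSq (V t) * (conj (V t) * xd φ t).im) + 1 / 4 * (V t ^ 3 * g t).im := by
    intro t
    have hn1 : ‖xd φ t‖ ≠ 0 := norm_ne_zero_iff.2 (hne t)
    have e0 : vn φ β ω t = (conj (V t) * xd φ t).im := rfl
    have e1 : (conj (V t) * xd φ t) ^ 3 = ((‖xd φ t‖ ^ 2 : ℝ) : ℂ) * conj (V t ^ 3 * g t) := by
      have hcn : conj (xd φ t) ≠ 0 := (map_ne_zero _).2 (hne t)
      have e3 : ((‖xd φ t‖ ^ 2 : ℝ) : ℂ) = xd φ t * conj (xd φ t) := by
        rw [Complex.mul_conj, Complex.normSq_eq_norm_sq]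
      rw [e3]
      simp only [hg, map_mul, map_pow, map_div₀, Complex.conj_conj]
      field_simp
    have e2 : normSq (conj (V t) * xd φ t) = normSq (V t) * ‖xd φ t‖ ^ 2 := by
      rw [map_mul, Complex.normSq_conj, Complex.normSq_eq_norm_sq (xd φ t)]
    rw [e0, im3, e1, e2, Complex.im_ofReal_mul, Complex.conj_im]
    field_simp
    ring
  have k1 : IntervalIntegrable (fun t => 3 / 4 * (normSq (V t) * (conj (V t) * xd φ t).im))
      volume 0 (2 * Real.pi) := by
    apply Continuous.intervalIntegrable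
    exact continuous_const.mul ((Complex.continuous_normSq.comp hVc).mul
      (Complex.continuous_im.comp ((Complex.continuous_conj.comp hVc).mul hd)))
  have k2 : IntervalIntegrable (fun t => 1 / 4 * (V t ^ 3 * g t).im) volume 0 (2 * Real.pi) :=
    (continuous_const.mul (Complex.continuous_im.comp hFc)).intervalIntegrable _ _
  have k3 : ∫ t in (0 : ℝ)..(2 * Real.pi), (V t ^ 3 * g t).im =
      (∫ t in (0 : ℝ)..(2 * Real.pi), V t ^ 3 * g t).im :=
    Complex.imCLM.intervalIntegral_comp_comm (hFc.intervalIntegrable _ _)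
  rw [intervalIntegral.integral_congr (fun t _ => key t), intervalIntegral.integral_add k1 k2,
    intervalIntegral.integral_const_mul, intervalIntegral.integral_const_mul, hE, k3, hF]
  ring

end Pool.Agent.E8helper6.FV3
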